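import Pool.Agent.E8helper50.SR.S4

/-! Project SR, piece QCY. -/

set_option autoImplicit false

universe u

namespace Pool.Agent.E8helper71.SR

open Pool.Agent.E8helper50.SR

theorem t_QCY : S_QM0.{u} → S_QUN.{u} → S_QON.{u} → S_QCY.{u} := by
  classical
  intro hM hU hO K _ _ B _ hB
  obtain ⟨k, d, φ, hmul, hinj, hran⟩ := hM K B hB
  have hmem : ∀ a, φ a ∈ B.gr 0 := fun a => by rw [← hran]; exact ⟨a, rfl⟩
  have hgr : ∀ x ∈ B.gr 0, ∃ a, φ a = x := fun x hx => by
    rw [← hran] at hx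
    exact hx
  have hu : ∀ x : B, φ 1 * x = x ∧ x * φ 1 = x := by
    apply hU K B hB (φ 1) (hmem 1)
    intro x hx
    obtain ⟨a, rfl⟩ := hgr x hx
    rw [← hmul, ← hmul, one_mul, mul_one]
    exact ⟨rfl, rfl⟩
  have hS : ∀ (i : Fin k) (M N : Matrix (Fin (d i)) (Fin (d i)) K),
      φ (Pi.single i M) * φ (Pi.single i N) = φ (Pi.single i (M * N)) := fun i M N => by
    rw [← hmul, Pi.single_mul]
  have hS0 : ∀ (i j : Fin k) (M : Matrix (Fin (d i)) (Fin (d i)) K)
      (N : Matrix (Fin (d j)) (Fin (d j)) K), i ≠ j →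
      φ (Pi.single i M) * φ (Pi.single j N) = 0 := fun i j M N hij => by
    rw [← hmul]
    have : (Pi.single i M * Pi.single j N : ∀ i : Fin k, Matrix (Fin (d i)) (Fin (d i)) K) = 0 := by
      funext l
      rw [Pi.mul_apply, Pi.zero_apply]
      by_cases hl : l = i
      · subst hl
        rw [Pi.single_eq_of_ne hij, mul_zero]
      · rw [Pi.single_eq_of_ne hl, zero_mul]
    rw [this, map_zero]
  -- the idempotents
  obtain ⟨e, he⟩ : ∃ e : Fin k → B, ∀ (i : Fin k), (∀ a : Fin (d i), e i =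
      φ (Pi.single i (Matrix.single ⟨0, Fin.pos a⟩ ⟨0, Fin.pos a⟩ 1))) ∧
      (¬ 0 < d i → e i = 0) := by
    refine ⟨fun i => if h : 0 < d i then φ (Pi.single i (Matrix.single ⟨0, h⟩ ⟨0, h⟩ 1)) else 0,
      fun i => ⟨fun a => ?_, fun h => ?_⟩⟩
    · simp only
      rw [dif_pos (Fin.pos a)]
    · simp only
      rw [dif_neg h]
  have he0 : ∀ i, e i ∈ B.gr 0 := fun i => by
    by_cases h : 0 < d i
    · rw [(he i).1 ⟨0, h⟩]
      exact hmem _
    · rw [(he i).2 h]
      exact zero_mem _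
  have hee : ∀ i, e i * e i = e i := fun i => by
    by_cases h : 0 < d i
    · rw [(he i).1 ⟨0, h⟩, hS]
      simp
    · rw [(he i).2 h, mul_zero]
  have hex : ∀ i, ∀ x ∈ B.gr 0, ∃ c : K, e i * x * e i = c • e i := fun i x hx => by
    by_cases h : 0 < d i
    · obtain ⟨a, rfl⟩ := hgr x hx
      refine ⟨a i ⟨0, h⟩ ⟨0, h⟩, ?_⟩
      rw [(he i).1 ⟨0, h⟩, ← hmul, ← hmul, ← map_smul]
      congr 1
      funext l
      rw [Pi.mul_apply, Pi.mul_apply, Pi.smul_apply]
      by_cases hl : l = i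
      · subst hl
        rw [Pi.single_eq_same, Matrix.single_mul_mul_single, one_mul, mul_one, Matrix.smul_single,
          smul_eq_mul, mul_one]
      · rw [Pi.single_eq_of_ne hl, zero_mul, zero_mul, smul_zero]
    · refine ⟨0, ?_⟩
      rw [(he i).2 h, mul_zero, smul_zero]
  choose Y hY1 hY2 hY3 using fun i j => hO K B hB (e i) (he0 i) (e j) (he0 j) (hee i) (hee j)
    (hex i) (hex j)
  obtain ⟨y, hy⟩ : ∃ y : B, y = ∑ i, ∑ j, Y i j := ⟨_, rfl⟩
  have hy1 : y ∈ B.gr 1 := by
    rw [hy]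
    exact Submodule.sum_mem _ fun i _ => Submodule.sum_mem _ fun j _ => hY1 i j
  refine ⟨y, hy1, fun x hx => ?_⟩
  obtain ⟨L, hL⟩ : ∃ L : ∀ i : Fin k, Fin (d i) → B, ∀ i a, L i a =
      φ (Pi.single i (Matrix.single a ⟨0, Fin.pos a⟩ 1)) := ⟨_, fun _ _ => rfl⟩
  obtain ⟨R, hR⟩ : ∃ R : ∀ i : Fin k, Fin (d i) → B, ∀ i a, R i a =
      φ (Pi.single i (Matrix.single ⟨0, Fin.pos a⟩ a 1)) := ⟨_, fun _ _ => rfl⟩
  have hL0 : ∀ i a, L i a ∈ B.gr 0 := fun i a => by rw [hL]; exact hmem _
  have hR0 : ∀ i a, R i a ∈ B.gr 0 := fun i a => by rw [hR]; exact hmem _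
  have hLe : ∀ i a, L i a * e i = L i a := fun i a => by
    rw [hL, (he i).1 a, hS]
    simp
  have heR : ∀ i a, e i * R i a = R i a := fun i a => by
    rw [hR, (he i).1 a, hS]
    simp
  have hLe0 : ∀ i a j, i ≠ j → L i a * e j = 0 := fun i a j hij => by
    by_cases h : 0 < d j
    · rw [hL, (he j).1 ⟨0, h⟩, hS0 _ _ _ _ hij]
    · rw [(he j).2 h, mul_zero]
  have heR0 : ∀ i a j, i ≠ j → e j * R i a = 0 := fun i a j hij => by
    by_cases h : 0 < d j
    · rw [hR, (he j).1 ⟨0, h⟩, hS0 _ _ _ _ hij.symm]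
    · rw [(he j).2 h, zero_mul]
  have key : ∀ i a j b, L i a * y * R j b = L i a * Y i j * R j b := fun i a j b => by
    rw [hy, Finset.mul_sum, Finset.sum_mul, Finset.sum_eq_single i]
    · rw [Finset.mul_sum, Finset.sum_mul, Finset.sum_eq_single j]
      · intro j' _ hj'
        rw [← hY2 i j', mul_assoc (L i a), mul_assoc (e i * Y i j'), heR0 j b j' (Ne.symm hj'),
          mul_zero, mul_zero]
      · intro h
        exact absurd (Finset.mem_univ _) h
    · intro i' _ hi'
      rw [Finset.mul_sum, Finset.sum_mul]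
      refine Finset.sum_eq_zero fun j' _ => ?_
      rw [← hY2 i' j', ← mul_assoc, ← mul_assoc, hLe0 i a i' (Ne.symm hi'), zero_mul, zero_mul,
        zero_mul]
    · intro h
      exact absurd (Finset.mem_univ _) h
  have hone : φ 1 = ∑ i, ∑ a, L i a * R i a := by
    have h1 : (1 : ∀ i : Fin k, Matrix (Fin (d i)) (Fin (d i)) K) =
        ∑ i, ∑ a : Fin (d i), Pi.single i (Matrix.single a a 1) := by
      have h2 : ∀ i : Fin k, (1 : Matrix (Fin (d i)) (Fin (d i)) K) =
          ∑ a : Fin (d i), Matrix.single a a 1 := fun i => by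
        ext a b
        rw [Matrix.sum_apply, Finset.sum_eq_single a]
        · rw [Matrix.one_apply, Matrix.single_apply]
          simp
        · intro c _ hc
          rw [Matrix.single_apply, if_neg]
          rintro ⟨h, -⟩
          exact hc h
        · intro h
          exact absurd (Finset.mem_univ _) h
      rw [← Finset.univ_sum_single (1 : ∀ i : Fin k, Matrix (Fin (d i)) (Fin (d i)) K)]
      refine Finset.sum_congr rfl fun i _ => ?_
      rw [Pi.one_apply, h2 i]
      exact map_sum (AddMonoidHom.single (fun i : Fin k => Matrix (Fin (d i)) (Fin (d i)) K) i) _ _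
    rw [h1, map_sum]
    refine Finset.sum_congr rfl fun i _ => ?_
    rw [map_sum]
    refine Finset.sum_congr rfl fun a _ => ?_
    rw [hL, hR, hS]
    simp
  have hx2 : x = ∑ i, ∑ a, ∑ j, ∑ b, L i a * (R i a * x * L j b) * R j b := by
    calc x = φ 1 * x * φ 1 := by rw [(hu x).1, (hu x).2]
      _ = (∑ i, ∑ a, L i a * R i a) * x * (∑ j, ∑ b, L j b * R j b) := by rw [hone]
      _ = _ := by
        rw [Finset.sum_mul, Finset.sum_mul]
        refine Finset.sum_congr rfl fun i _ => ?_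
        rw [Finset.sum_mul, Finset.sum_mul]
        refine Finset.sum_congr rfl fun a _ => ?_
        rw [Finset.mul_sum]
        refine Finset.sum_congr rfl fun j _ => ?_
        rw [Finset.mul_sum]
        refine Finset.sum_congr rfl fun b _ => ?_
        simp only [mul_assoc]
  rw [hx2]
  refine Submodule.sum_mem _ fun i _ => Submodule.sum_mem _ fun a _ => Submodule.sum_mem _
    fun j _ => Submodule.sum_mem _ fun b _ => ?_
  have hz : R i a * x * L j b ∈ B.gr 1 := by
    have h1 := B.mul_mem 0 1 _ _ (hR0 i a) hx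
    have h2 := B.mul_mem (0 + 1) 0 _ _ h1 (hL0 j b)
    simpa using h2
  obtain ⟨c, hc⟩ := hY3 i j _ hz
  have h3 : L i a * (R i a * x * L j b) * R j b = c • (L i a * y * R j b) := by
    rw [key]
    have h4 : L i a * (R i a * x * L j b) * R j b =
        L i a * (e i * (R i a * x * L j b) * e j) * R j b := by
      conv_lhs => rw [← hLe i a, ← heR j b]
      simp only [mul_assoc]
    rw [h4, hc, mul_smul_comm, smul_mul_assoc]
  rw [h3]
  exact Submodule.smul_mem _ _ (Submodule.subset_span ⟨L i a, hL0 i a, R j b, hR0 j b, rfl⟩)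

end Pool.Agent.E8helper71.SR
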